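import Mathlib

set_option autoImplicit false

namespace Pool.Agent.H9.Chung

open Finset

/-- Duality for the assignment problem with integral costs. -/
theorem assign {I : Type*} [Fintype I] [DecidableEq I] (c : I → I → ℤ)
    (hc : ∀ i j, 0 ≤ c i j) :
    ∃ (a b : I → ℤ) (σ : Equiv.Perm I), (∀ i j, a i + b j ≤ c i j) ∧
      ∀ i, a i + b (σ i) = c i (σ i) := by
  classical
  -- the set of values of feasible duals
  let S : Set ℤ := {s | ∃ a b : I → ℤ, (∀ i j, a i + b j ≤ c i j) ∧ s = ∑ i, a i + ∑ i, b i}
  have hne : S.Nonempty := ⟨0, fun _ => 0, fun _ => 0, by simpa using hc, by simp⟩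
  have hbdd : BddAbove S := by
    refine ⟨∑ i, c i i, ?_⟩
    rintro s ⟨a, b, hab, rfl⟩
    rw [← Finset.sum_add_distrib]
    exact Finset.sum_le_sum fun i _ => hab i i
  obtain ⟨a, b, hab, hs⟩ := Int.csSup_mem hne hbdd
  have hmax : ∀ a' b' : I → ℤ, (∀ i j, a' i + b' j ≤ c i j) →
      ∑ i, a' i + ∑ i, b' i ≤ ∑ i, a i + ∑ i, b i := by
    intro a' b' h'
    rw [← hs]
    exact le_csSup hbdd ⟨a', b', h', rfl⟩
  -- the tight graph
  let t : I → Finset I := fun i => Finset.univ.filter fun j => a i + b j = c i j
  have hhall : ∀ A : Finset I, A.card ≤ (A.biUnion t).card := by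
    intro A
    by_contra hlt
    push Not at hlt
    let a' : I → ℤ := fun i => a i + if i ∈ A then 1 else 0
    let b' : I → ℤ := fun j => b j - if j ∈ A.biUnion t then 1 else 0
    have hfeas : ∀ i j, a' i + b' j ≤ c i j := by
      intro i j
      have h0 := hab i j
      by_cases hi : i ∈ A
      · by_cases hj : j ∈ A.biUnion t
        · simp only [a', b', if_pos hi, if_pos hj]
          linarith
        · have hnt : a i + b j ≠ c i j := by
            intro h
            exact hj (Finset.mem_biUnion.2 ⟨i, hi, by simp [t, h]⟩)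
          have : a i + b j < c i j := lt_of_le_of_ne h0 hnt
          simp only [a', b', if_pos hi, if_neg hj]
          linarith
      · simp only [a', b', if_neg hi]
        split_ifs <;> linarith
    have h1 := hmax a' b' hfeas
    have h2 : ∑ i, a' i = ∑ i, a i + A.card := by
      simp [a', Finset.sum_add_distrib]
    have h3 : ∑ i, b' i = ∑ i, b i - (A.biUnion t).card := by
      simp only [b', Finset.sum_sub_distrib]
      generalize A.biUnion t = B
      simp
    rw [h2, h3] at h1
    have : (A.card : ℤ) ≤ (A.biUnion t).card := by linarith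
    have h4 : A.card ≤ (A.biUnion t).card := by exact_mod_cast this
    omega
  obtain ⟨f, hf, hft⟩ := (Finset.all_card_le_biUnion_card_iff_exists_injective t).1 hhall
  refine ⟨a, b, Equiv.ofBijective f (Finite.injective_iff_bijective.1 hf), hab, ?_⟩
  intro i
  have := hft i
  simpa [t] using this

end Pool.Agent.H9.Chung
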