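import Mathlib

set_option autoImplicit false

namespace Pool.Agent.H9.Chung

open Finset SimpleGraph

variable {V : Type*} {G : SimpleGraph V}

/-- Length of a walk for the arc lengths `L`. -/
def len (L : V → V → ℕ) {a b : V} (p : G.Walk a b) : ℕ :=
  (p.darts.map fun e => L e.fst e.snd).sum

@[simp] theorem len_nil (L : V → V → ℕ) (a : V) : len L (Walk.nil : G.Walk a a) = 0 := by
  simp [len]

@[simp] theorem len_cons (L : V → V → ℕ) {a b c : V} (h : G.Adj a b) (p : G.Walk b c) :
    len L (Walk.cons h p) = L a b + len L p := by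
  simp [len]

theorem len_one {a b : V} (p : G.Walk a b) : len (fun _ _ => 1) p = p.length := by
  induction p with
  | nil => simp
  | cons h p ih => simp [ih, add_comm]

/-- Sum of the tolls along a walk. -/
def toll (z : V → ℕ) {a b : V} (p : G.Walk a b) : ℕ := (p.support.map z).sum

@[simp] theorem toll_nil (z : V → ℕ) (a : V) : toll z (Walk.nil : G.Walk a a) = z a := by
  simp [toll]

@[simp] theorem toll_cons (z : V → ℕ) {a b c : V} (h : G.Adj a b) (p : G.Walk b c) :
    toll z (Walk.cons h p) = z a + toll z p := by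
  simp [toll]

/-- Potentials bound the length plus the tolls from below. -/
theorem pot_le (L : V → V → ℕ) (z π : V → ℕ)
    (hπ : ∀ x y, G.Adj x y → π y ≤ π x + z x + L x y) {a b : V} (p : G.Walk a b) :
    π b + z b ≤ π a + len L p + toll z p := by
  induction p with
  | nil => simp
  | cons h p ih =>
    have := hπ _ _ h
    simp only [len_cons, toll_cons]
    omega

section Inner

variable [DecidableEq V]

/-- Internal vertices of a walk from `v` to `w`. -/
def inner {v w : V} (p : G.Walk v w) : Finset V := p.support.toFinset \ {v, w}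

theorem mem_inner {v w x : V} {p : G.Walk v w} :
    x ∈ inner p ↔ x ∈ p.support ∧ x ≠ v ∧ x ≠ w := by
  simp [inner, not_or]

theorem sum_inner {v w : V} {p : G.Walk v w} (hp : p.IsPath) (z : V → ℕ) (hv : z v = 0)
    (hw : z w = 0) : ∑ x ∈ inner p, z x = toll z p := by
  have h1 : toll z p = ∑ x ∈ p.support.toFinset, z x := by
    rw [toll, List.sum_toFinset _ hp.support_nodup]
  rw [h1, inner]
  apply Finset.sum_subset Finset.sdiff_subset
  intro x _ hx
  have : x = v ∨ x = w := by
    by_contra hne
    push Not at hne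
    exact hx (by simp_all)
  rcases this with rfl | rfl <;> assumption

theorem card_inner {v w : V} (hvw : v ≠ w) {p : G.Walk v w} (hp : p.IsPath) :
    (inner p).card + 1 = p.length := by
  have h1 : p.support.toFinset.card = p.length + 1 := by
    rw [List.toFinset_card_of_nodup hp.support_nodup, Walk.length_support]
  have h2 : ({v, w} : Finset V) ⊆ p.support.toFinset := by
    intro x hx
    simp only [Finset.mem_insert, Finset.mem_singleton] at hx
    rcases hx with rfl | rfl <;> simp
  have h3 : ({v, w} : Finset V).card = 2 := Finset.card_pair hvw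
  have h4 := Finset.card_sdiff_add_card_eq_card h2
  rw [inner]
  omega

/-- Two walks are internally disjoint families. -/
def Disj {v w : V} {q : ℕ} (P : Fin q → G.Walk v w) : Prop :=
  ∀ i j, i ≠ j → ∀ x, x ∈ (P i).support → x ∈ (P j).support → x = v ∨ x = w

/-- All internal vertices of a family. -/
def inn {v w : V} {q : ℕ} (P : Fin q → G.Walk v w) : Finset V :=
  Finset.univ.biUnion fun i => inner (P i)

theorem mem_inn {v w x : V} {q : ℕ} {P : Fin q → G.Walk v w} :
    x ∈ inn P ↔ ∃ i, x ∈ inner (P i) := by
  simp [inn]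

theorem sum_inn {v w : V} {q : ℕ} {P : Fin q → G.Walk v w} (hP : Disj P) (f : V → ℕ) :
    ∑ x ∈ inn P, f x = ∑ i, ∑ x ∈ inner (P i), f x := by
  rw [inn, Finset.sum_biUnion]
  intro i _ j _ hij
  rw [Function.onFun, Finset.disjoint_left]
  intro x hxi hxj
  rw [mem_inner] at hxi hxj
  rcases hP i j hij x hxi.1 hxj.1 with h | h
  · exact hxi.2.1 h
  · exact hxi.2.2 h

theorem sum_inn_toll {v w : V} {q : ℕ} {P : Fin q → G.Walk v w} (hP : Disj P)
    (hpath : ∀ i, (P i).IsPath) (z : V → ℕ) (hv : z v = 0) (hw : z w = 0) :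
    ∑ x ∈ inn P, z x = ∑ i, toll z (P i) := by
  rw [sum_inn hP]
  exact Finset.sum_congr rfl fun i _ => sum_inner (hpath i) z hv hw

theorem card_inn {v w : V} (hvw : v ≠ w) {q : ℕ} {P : Fin q → G.Walk v w} (hP : Disj P)
    (hpath : ∀ i, (P i).IsPath) : (inn P).card + q = ∑ i, (P i).length := by
  have h1 : (inn P).card = ∑ i, (inner (P i)).card := by
    have := sum_inn hP (fun _ => 1)
    simpa using this
  have h2 : ∀ i, (inner (P i)).card + 1 = (P i).length := fun i => card_inner hvw (hpath i)
  rw [h1, ← Finset.sum_congr rfl fun i _ => h2 i, Finset.sum_add_distrib]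
  simp

end Inner

end Pool.Agent.H9.Chung
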