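import Mathlib

set_option autoImplicit false

namespace Pool.Agent.H9.Chung

open Finset

/-- First return times of a permutation to a set. -/
theorem returns {I : Type*} [Fintype I] [DecidableEq I] (σ : Equiv.Perm I) (T : I → Prop) :
    ∃ k : I → ℕ, (∀ e, T e → 1 ≤ k e ∧ T (σ^[k e] e)) ∧
      (∀ e, T e → ∀ t, 1 ≤ t → t < k e → ¬ T (σ^[t] e)) ∧
      (∀ e e', T e → T e' → ∀ s t, s < k e → t < k e' → σ^[s] e = σ^[t] e' → e = e' ∧ s = t) := by
  classical
  have hex : ∀ e, T e → ∃ t, 1 ≤ t ∧ T (σ^[t] e) := by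
    intro e he
    refine ⟨orderOf σ, orderOf_pos σ, ?_⟩
    have : (σ ^ orderOf σ) e = e := by rw [pow_orderOf_eq_one]; rfl
    rw [Equiv.Perm.coe_pow] at this
    rw [this]; exact he
  let k : I → ℕ := fun e => if h : T e then Nat.find (hex e h) else 0
  have hk : ∀ e (h : T e), k e = Nat.find (hex e h) := fun e h => by simp [k, h]
  have hk1 : ∀ e, T e → 1 ≤ k e ∧ T (σ^[k e] e) := by
    intro e he
    rw [hk e he]
    exact Nat.find_spec (hex e he)
  have hk2 : ∀ e, T e → ∀ t, 1 ≤ t → t < k e → ¬ T (σ^[t] e) := by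
    intro e he t ht1 ht2 hT
    rw [hk e he] at ht2
    exact Nat.find_min (hex e he) ht2 ⟨ht1, hT⟩
  have key : ∀ e e', T e → T e' → ∀ s t, s ≤ t → t < k e' → σ^[s] e = σ^[t] e' →
      e = e' ∧ s = t := by
    intro e e' he he' s t hst ht h
    obtain ⟨r, rfl⟩ := Nat.exists_eq_add_of_le hst
    rw [Function.iterate_add_apply] at h
    have h1 : e = σ^[r] e' := (σ.injective.iterate s) h
    rcases Nat.eq_zero_or_pos r with hr | hr
    · subst hr
      exact ⟨by simpa using h1, by simp⟩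
    · exact absurd (h1 ▸ he) (hk2 e' he' r hr (by omega))
  refine ⟨k, hk1, hk2, ?_⟩
  intro e e' he he' s t hs ht h
  rcases le_total s t with hst | hst
  · exact key e e' he he' s t hst ht h
  · obtain ⟨h1, h2⟩ := key e' e he' he t s hst hs h.symm
    exact ⟨h1.symm, h2.symm⟩

end Pool.Agent.H9.Chung
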