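import Pool.Agent.H9.Chung.Assign
import Pool.Agent.H9.Chung.Basic
import Pool.Agent.H9.Chung.Orbit

set_option autoImplicit false

namespace Pool.Agent.H9.Chung

open Finset SimpleGraph

variable {V : Type*} [DecidableEq V] (G : SimpleGraph V) [DecidableRel G.Adj]

/-- The cost matrix of the assignment problem. -/
def cost (v w : V) (L : V → V → ℕ) (M B : ℕ) (N : ℕ) : Fin N ⊕ V → Fin N ⊕ V → ℤ
  | .inl _, .inl _ => M
  | .inl _, .inr x => if G.Adj v x then L v x else B
  | .inr x, .inl _ => if G.Adj x w then L x w else B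
  | .inr x, .inr y => if x = y then 0 else
      if G.Adj x y ∧ x ≠ v ∧ x ≠ w ∧ y ≠ v ∧ y ≠ w then L x y else B

/-- The vertex of a node; the copies of the source are sent to `v`. -/
def val (v : V) {N : ℕ} : Fin N ⊕ V → V
  | .inl _ => v
  | .inr x => x

/-- Walks from orbits. -/
theorem build {v w : V} (L : V → V → ℕ) (M B : ℕ) {N : ℕ} (σ : Equiv.Perm (Fin N ⊕ V))
    (hB : ∀ e, cost G v w L M B N e (σ e) ≠ B) :
    ∀ k : ℕ, 1 ≤ k → ∀ e : Fin N ⊕ V, (∀ t, 1 ≤ t → t < k → ∃ y, σ^[t] e = .inr y) →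
      (∃ j, σ^[k] e = .inl j) → (k = 1 → ∃ x, e = .inr x) →
      ∃ p : G.Walk (val v e) w,
        p.support = (List.range k).map (fun t => val v (σ^[t] e)) ++ [w] ∧
        (len L p : ℤ) = ∑ t ∈ Finset.range k, cost G v w L M B N (σ^[t] e) (σ^[t+1] e) := by
  intro k hk
  induction k, hk using Nat.le_induction with
  | base =>
    intro e _ hj he
    obtain ⟨x, rfl⟩ := he rfl
    obtain ⟨j, hj⟩ := hj
    rw [Function.iterate_one] at hj
    have h1 := hB (.inr x)
    rw [hj] at h1
    have hadj : G.Adj x w := by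
      by_contra hn
      simp [cost, hn] at h1
    refine ⟨Walk.cons hadj Walk.nil, ?_, ?_⟩
    · simp [val]
    · simp [cost, hj, hadj, val]
  | succ k hk ih =>
    intro e ht hj _
    obtain ⟨y, hy⟩ := ht 1 le_rfl (by omega)
    rw [Function.iterate_one] at hy
    -- the rest of the walk
    obtain ⟨p, hp1, hp2⟩ := ih (σ e) (by
      intro t ht1 ht2
      obtain ⟨y, hy⟩ := ht (t+1) (by omega) (by omega)
      exact ⟨y, by rw [← hy, Function.iterate_succ_apply]⟩) (by
      obtain ⟨j, hj⟩ := hj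
      exact ⟨j, by rw [← hj, Function.iterate_succ_apply]⟩) (fun _ => ⟨y, hy⟩)
    have hcost : cost G v w L M B N e (σ e) = L (val v e) (val v (σ e)) ∧
        G.Adj (val v e) (val v (σ e)) := by
      have h1 := hB e
      rw [hy] at h1 ⊢
      rcases e with i | x
      · by_cases hadj : G.Adj v y
        · simp [cost, hadj, val]
        · simp [cost, hadj] at h1
      · have hxy : x ≠ y := by
          rintro rfl
          obtain ⟨j, hj⟩ := hj
          have : σ^[k+1] (Sum.inr x) = Sum.inr x := Function.iterate_fixed hy (k+1)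
          rw [this] at hj
          exact absurd hj (by simp)
        by_cases hadj : G.Adj x y ∧ x ≠ v ∧ x ≠ w ∧ y ≠ v ∧ y ≠ w
        · simp only [cost, if_neg hxy, if_pos hadj, val]
          exact ⟨by trivial, hadj.1⟩
        · simp only [cost, if_neg hxy, if_neg hadj] at h1
          exact absurd rfl h1
    refine ⟨Walk.cons hcost.2 p, ?_, ?_⟩
    · rw [Walk.support_cons, hp1, List.range_succ_eq_map]
      simp [Function.comp_def]
    · rw [len_cons, Nat.cast_add, hp2, Finset.sum_range_succ', add_comm]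
      simp only [Function.iterate_zero, id, zero_add, Function.iterate_one]
      rw [hcost.1]
      rfl

theorem telescope {I : Type*} (a b : I → ℤ) (f : ℕ → I) (m : ℕ) :
    ∑ t ∈ Finset.range (m+1), (a (f t) + b (f (t+1))) =
      a (f 0) + b (f (m+1)) + ∑ t ∈ Finset.range m, (a (f (t+1)) + b (f (t+1))) := by
  induction m with
  | zero => simp
  | succ m ih => rw [Finset.sum_range_succ, ih, Finset.sum_range_succ]; ring

theorem list_range_sum (f : ℕ → ℕ) (n : ℕ) :
    ((List.range n).map f).sum = ∑ t ∈ Finset.range n, f t := by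
  induction n with
  | zero => simp
  | succ n ih => simp [List.range_succ, Finset.sum_range_succ, ih]

/-- Min-max theorem: disjoint paths against tolls and potentials. -/
theorem duality [Fintype V] {v w : V} (hvw : v ≠ w) (hadj : ¬ G.Adj v w) (L : V → V → ℕ)
    (M : ℕ) :
    ∃ (q : ℕ) (P : Fin q → G.Walk v w) (z π : V → ℕ),
      (∀ i, (P i).IsPath) ∧ Disj P ∧ z v = 0 ∧ z w = 0 ∧ π v = 0 ∧ π w = M ∧
      (∀ x y, G.Adj x y → π y ≤ π x + z x + L x y) ∧
      (∀ i, len L (P i) < M) ∧
      (∀ i, len L (P i) + toll z (P i) = M) ∧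
      (∀ x, z x ≠ 0 → ∃ i, x ∈ (P i).support) := by
  classical
  obtain ⟨N, hN⟩ : ∃ N, N = Fintype.card V + 1 := ⟨_, rfl⟩
  obtain ⟨B, hBdef⟩ : ∃ B, B = N * M + 1 := ⟨_, rfl⟩
  obtain ⟨c, hc⟩ : ∃ c, c = cost G v w L M B N := ⟨_, rfl⟩
  have hc0 : ∀ e e', 0 ≤ c e e' := by
    intro e e'
    rw [hc]
    rcases e with i | x <;> rcases e' with j | y <;> simp only [cost]
    · positivity
    · split_ifs <;> positivity
    · split_ifs <;> positivity
    · split_ifs <;> positivity
  obtain ⟨a, b, σ, hab, hσ⟩ := assign c hc0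
  have htot : ∑ e, c e (σ e) = ∑ e, (a e + b e) := by
    rw [Finset.sum_add_distrib, ← Equiv.sum_comp σ b, ← Finset.sum_add_distrib]
    exact Finset.sum_congr rfl fun e _ => (hσ e).symm
  have htot2 : ∑ e, c e (σ e) ≤ N * M := by
    rw [htot]
    calc ∑ e, (a e + b e) ≤ ∑ e, c e e := Finset.sum_le_sum fun e _ => hab e e
      _ = N * M := by
        rw [Fintype.sum_sum_type, hc]
        simp [cost]
  have hB : ∀ e, c e (σ e) ≠ B := by
    intro e he
    have h1 : c e (σ e) ≤ ∑ e, c e (σ e) :=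
      Finset.single_le_sum (f := fun e => c e (σ e)) (fun e _ => hc0 e (σ e)) (Finset.mem_univ e)
    rw [he, hBdef] at h1
    push_cast at h1
    linarith
  have hfv : σ (.inr v) = .inr v := by
    have h1 := hB (.inr v)
    rcases hs : σ (.inr v) with j | y
    · rw [hs, hc] at h1
      simp [cost, hadj] at h1
    · rw [hs, hc] at h1
      by_contra hne
      have hvy : v ≠ y := fun h => hne (by rw [h])
      simp [cost, hvy] at h1
  have hfw : σ (.inr w) = .inr w := by
    have h1 := hB (.inr w)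
    rcases hs : σ (.inr w) with j | y
    · rw [hs, hc] at h1
      simp [cost] at h1
    · rw [hs, hc] at h1
      by_contra hne
      have hvy : w ≠ y := fun h => hne (by rw [h])
      simp [cost, hvy] at h1
  obtain ⟨i0, j0, h0⟩ : ∃ i j, σ (.inl i) = .inl j := by
    by_contra hno
    push Not at hno
    have h1 : ∀ i : Fin N, ∃ x : V, σ (.inl i) = .inr x := by
      intro i
      rcases hs : σ (.inl i) with j | x
      · exact absurd hs (hno i j)
      · exact ⟨x, rfl⟩
    choose g hg using h1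
    have hinj : Function.Injective g := by
      intro i j hij
      have : σ (.inl i) = σ (.inl j) := by rw [hg, hg, hij]
      simpa using σ.injective this
    have := Fintype.card_le_of_injective g hinj
    simp [hN] at this
  have hM : a (.inl i0) + b (.inl j0) = M := by
    have := hσ (.inl i0)
    rw [h0] at this
    rw [this, hc]
    simp [cost]
  have ha_le : ∀ i, a (.inl i) + b (.inl j0) ≤ M := by
    intro i
    have := hab (.inl i) (.inl j0)
    rw [hc] at this
    simpa [cost] using this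
  have hb_le : ∀ j, a (.inl i0) + b (.inl j) ≤ M := by
    intro j
    have := hab (.inl i0) (.inl j)
    rw [hc] at this
    simpa [cost] using this
  have hab_le : ∀ i j, a (.inl i) + b (.inl j) ≤ M := by
    intro i j
    have := hab (.inl i) (.inl j)
    rw [hc] at this
    simpa [cost] using this
  -- tolls
  have hz0 : ∀ x, a (.inr x) + b (.inr x) ≤ 0 := by
    intro x
    have := hab (.inr x) (.inr x)
    rw [hc] at this
    simpa [cost] using this
  obtain ⟨z, hz⟩ : ∃ z : V → ℕ, ∀ x, (z x : ℤ) = -(a (.inr x) + b (.inr x)) := by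
    refine ⟨fun x => (-(a (.inr x) + b (.inr x))).toNat, fun x => ?_⟩
    rw [Int.toNat_of_nonneg]
    linarith [hz0 x]
  have hzv : z v = 0 := by
    have h1 := hσ (.inr v)
    rw [hfv, hc] at h1
    simp only [cost, if_true] at h1
    have := hz v
    omega
  have hzw : z w = 0 := by
    have h1 := hσ (.inr w)
    rw [hfw, hc] at h1
    simp only [cost, if_true] at h1
    have := hz w
    omega
  -- potentials
  obtain ⟨π, hπ⟩ : ∃ π : V → ℕ, π = fun x => if x = v then 0 else if x = w then M else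
      (min (M : ℤ) (a (.inl i0) + b (.inr x))).toNat := ⟨_, rfl⟩
  have hπv : π v = 0 := by rw [hπ]; simp
  have hπw : π w = M := by rw [hπ]; simp [hvw.symm]
  have hπx : ∀ x, x ≠ v → x ≠ w → π x = (min (M : ℤ) (a (.inl i0) + b (.inr x))).toNat := by
    intro x h1 h2; rw [hπ]; simp [h1, h2]
  have hπM : ∀ x, π x ≤ M := by
    intro x
    by_cases h1 : x = v
    · rw [h1, hπv]; omega
    · by_cases h2 : x = w
      · rw [h2, hπw]
      · rw [hπx x h1 h2]; omega
  have hpot : ∀ x y, G.Adj x y → π y ≤ π x + z x + L x y := by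
    intro x y hxy
    by_cases hyv : y = v
    · rw [hyv, hπv]; omega
    by_cases hxw : x = w
    · rw [hxw, hπw]
      have := hπM y
      omega
    by_cases hxv : x = v
    · subst hxv
      have hyw : y ≠ w := by rintro rfl; exact hadj hxy
      have h1 := hab (.inl i0) (.inr y)
      rw [hc] at h1
      simp only [cost, if_pos hxy] at h1
      rw [hπx y hyv hyw]
      omega
    have hzx := hz x
    by_cases hyw : y = w
    · subst hyw
      have h1 := hab (.inr x) (.inl j0)
      rw [hc] at h1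
      simp only [cost, if_pos hxy] at h1
      rw [hπw, hπx x hxv hxw]
      omega
    · have h1 := hab (.inr x) (.inr y)
      rw [hc] at h1
      have hne : x ≠ y := hxy.ne
      simp only [cost, if_neg hne, if_pos (show G.Adj x y ∧ x ≠ v ∧ x ≠ w ∧ y ≠ v ∧ y ≠ w from
        ⟨hxy, hxv, hxw, hyv, hyw⟩)] at h1
      rw [hπx x hxv hxw, hπx y hyv hyw]
      omega
  -- orbits
  obtain ⟨k, hk1, hk2, hk3⟩ := returns σ (fun e => ∃ i : Fin N, e = .inl i)
  have hcs : ∀ (i : Fin N), 2 ≤ k (.inl i) → ∃ p : G.Walk v w,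
      p.support = (List.range (k (.inl i))).map (fun t => val v (σ^[t] (.inl i))) ++ [w] ∧
      (len L p : ℤ) = ∑ t ∈ Finset.range (k (.inl i)), c (σ^[t] (.inl i)) (σ^[t+1] (.inl i)) := by
    intro i hi
    have := build G (v := v) (w := w) L M B σ (by rw [← hc]; exact hB) (k (.inl i)) (by omega)
      (.inl i) (by
        intro t ht1 ht2
        have := hk2 (.inl i) ⟨i, rfl⟩ t ht1 ht2
        rcases hs : σ^[t] (.inl i) with j | y
        · exact absurd ⟨j, hs⟩ this
        · exact ⟨y, rfl⟩) ((hk1 (.inl i) ⟨i, rfl⟩).2) (by omega)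
    rw [← hc] at this
    exact this
  choose P hPs hPl using hcs
  have hmid : ∀ (i : Fin N) t, 1 ≤ t → t < k (.inl i) →
      ∃ y, σ^[t] (.inl i) = .inr y ∧ y ≠ v ∧ y ≠ w := by
    intro i t ht1 ht2
    rcases hs : σ^[t] (.inl i) with j | y
    · exact absurd ⟨j, hs⟩ (hk2 _ ⟨i, rfl⟩ t ht1 ht2)
    · obtain ⟨j, hj⟩ := (hk1 (.inl i) ⟨i, rfl⟩).2
      have h2 : σ^[k (.inl i)] (.inl i) = σ^[k (.inl i) - t] (σ^[t] (.inl i)) := by
        rw [← Function.iterate_add_apply]; congr 2; omega
      refine ⟨y, rfl, ?_, ?_⟩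
      · rintro rfl
        rw [hs, Function.iterate_fixed hfv, hj] at h2
        simp at h2
      · rintro rfl
        rw [hs, Function.iterate_fixed hfw, hj] at h2
        simp at h2
  have hval0 : ∀ i : Fin N, val v (σ^[0] (.inl i)) = v := fun i => rfl
  have hvalt : ∀ (i : Fin N) t, 1 ≤ t → t < k (.inl i) →
      val v (σ^[t] (.inl i)) ≠ v ∧ val v (σ^[t] (.inl i)) ≠ w ∧
      σ^[t] (.inl i) = .inr (val v (σ^[t] (.inl i))) := by
    intro i t ht1 ht2
    obtain ⟨y, hy, hyv, hyw⟩ := hmid i t ht1 ht2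
    rw [hy]
    exact ⟨hyv, hyw, rfl⟩
  have hpath : ∀ i h, (P i h).IsPath := by
    intro i h
    rw [Walk.isPath_def, hPs i h, List.nodup_append]
    refine ⟨?_, by simp, ?_⟩
    · apply List.Nodup.map_on _ List.nodup_range
      intro s hs t ht hst
      rw [List.mem_range] at hs ht
      rcases Nat.eq_zero_or_pos s with hs0 | hs0
      · rcases Nat.eq_zero_or_pos t with ht0 | ht0
        · omega
        · subst hs0
          rw [hval0] at hst
          exact absurd hst.symm (hvalt i t ht0 ht).1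
      · rcases Nat.eq_zero_or_pos t with ht0 | ht0
        · subst ht0
          rw [hval0] at hst
          exact absurd hst (hvalt i s hs0 hs).1
        · have h1 := (hvalt i s hs0 hs).2.2
          have h2 := (hvalt i t ht0 ht).2.2
          rw [hst, ← h2] at h1
          exact (hk3 _ _ ⟨i, rfl⟩ ⟨i, rfl⟩ s t hs ht h1).2
    · intro x hx y hy hxy
      rw [List.mem_map] at hx
      obtain ⟨t, ht, rfl⟩ := hx
      rw [List.mem_range] at ht
      rw [List.mem_singleton] at hy
      rcases Nat.eq_zero_or_pos t with ht0 | ht0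
      · subst ht0
        rw [hval0, hy] at hxy
        exact hvw hxy
      · exact (hvalt i t ht0 ht).2.1 (hxy.trans hy)
  have hdisj : ∀ i j hi hj, i ≠ j → ∀ x, x ∈ (P i hi).support → x ∈ (P j hj).support →
      x = v ∨ x = w := by
    intro i j hi hj hij x hxi hxj
    rw [hPs, List.mem_append, List.mem_map, List.mem_singleton] at hxi hxj
    rcases hxi with ⟨s, hs, rfl⟩ | hx
    · rcases hxj with ⟨t, ht, hst⟩ | hx
      · rw [List.mem_range] at hs ht
        rcases Nat.eq_zero_or_pos s with hs0 | hs0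
        · subst hs0
          exact Or.inl (hval0 i)
        · rcases Nat.eq_zero_or_pos t with ht0 | ht0
          · subst ht0
            rw [hval0] at hst
            exact Or.inl hst.symm
          · exfalso
            have h1 := (hvalt i s hs0 hs).2.2
            have h2 := (hvalt j t ht0 ht).2.2
            rw [← hst, ← h2] at h1
            have := (hk3 _ _ ⟨i, rfl⟩ ⟨j, rfl⟩ s t hs ht h1).1
            exact hij (by simpa using this)
      · exact Or.inr hx
    · exact Or.inr hx
  -- lengths and tolls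
  have hlen : ∀ i, ∑ t ∈ Finset.range (k (.inl i)), c (σ^[t] (.inl i)) (σ^[t+1] (.inl i)) +
      ∑ t ∈ Finset.range (k (.inl i)), (z (val v (σ^[t] (.inl i))) : ℤ) ≤ M := by
    intro i
    obtain ⟨h1, j, hj⟩ := hk1 (.inl i) ⟨i, rfl⟩
    obtain ⟨m, hm⟩ : ∃ m, k (.inl i) = m + 1 := ⟨k (.inl i) - 1, by omega⟩
    have h2 : ∑ t ∈ Finset.range (k (.inl i)), c (σ^[t] (.inl i)) (σ^[t+1] (.inl i)) =
        ∑ t ∈ Finset.range (m+1), (a (σ^[t] (.inl i)) + b (σ^[t+1] (.inl i))) := by
      rw [hm]
      refine Finset.sum_congr rfl fun t _ => ?_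
      rw [Function.iterate_succ_apply']
      exact (hσ _).symm
    have h3 := telescope a b (fun t => σ^[t] (.inl i)) m
    rw [h2, h3, hm, Finset.sum_range_succ', hval0, hzv]
    have h4 : ∑ t ∈ Finset.range m, (a (σ^[t+1] (.inl i)) + b (σ^[t+1] (.inl i))) =
        - ∑ t ∈ Finset.range m, (z (val v (σ^[t+1] (.inl i))) : ℤ) := by
      rw [← Finset.sum_neg_distrib]
      refine Finset.sum_congr rfl fun t ht => ?_
      rw [Finset.mem_range] at ht
      have h5 := (hvalt i (t+1) (by omega) (by omega)).2.2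
      rw [hz, ← h5]
      ring
    have h6 := hab_le i j
    have h7 : σ^[m+1] (Sum.inl i : Fin N ⊕ V) = .inl j := by
      rw [← hm]; exact hj
    have h8 : σ^[0] (Sum.inl i : Fin N ⊕ V) = .inl i := rfl
    rw [h7, h8, h4]
    push_cast
    linarith
  have htoll : ∀ i h, (toll z (P i h) : ℤ) =
      ∑ t ∈ Finset.range (k (.inl i)), (z (val v (σ^[t] (.inl i))) : ℤ) := by
    intro i h
    rw [toll, hPs, List.map_append, List.sum_append, List.map_map, list_range_sum]
    simp [hzw, Function.comp_def]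
  have hexact : ∀ i h, len L (P i h) + toll z (P i h) = M := by
    intro i h
    have h1 := hlen i
    rw [← hPl i h, ← htoll i h] at h1
    have h2 := pot_le L z π hpot (P i h)
    rw [hπv, hπw, hzw] at h2
    have h3 : len L (P i h) + toll z (P i h) ≤ M := by exact_mod_cast h1
    omega
  -- the total
  have hsumC : ∑ i : Fin N, ∑ t ∈ Finset.range (k (.inl i)),
      c (σ^[t] (.inl i)) (σ^[t+1] (.inl i)) ≤ ∑ e, c e (σ e) := by
    have h1 : ∀ i : Fin N, ∀ t, c (σ^[t] (.inl i)) (σ^[t+1] (.inl i)) =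
        (fun e => c e (σ e)) (σ^[t] (.inl i)) := by
      intro i t
      rw [Function.iterate_succ_apply']
    simp only [h1]
    rw [Finset.sum_sigma']
    have hinj : Set.InjOn (fun p : (_ : Fin N) × ℕ => σ^[p.2] (Sum.inl p.1 : Fin N ⊕ V))
        ((Finset.univ.sigma fun i : Fin N => Finset.range (k (.inl i)) :
          Finset ((_ : Fin N) × ℕ)) : Set ((_ : Fin N) × ℕ)) := by
      rintro ⟨i, s⟩ hs ⟨j, t⟩ ht hst
      simp only [Finset.coe_sigma, Set.mem_sigma_iff, Finset.coe_univ, Set.mem_univ,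
        Finset.coe_range, Set.mem_Iio, true_and] at hs ht
      obtain ⟨h2, h3⟩ := hk3 _ _ ⟨i, rfl⟩ ⟨j, rfl⟩ s t hs ht hst
      have h4 : i = j := by simpa using h2
      subst h4
      subst h3
      rfl
    rw [← Finset.sum_image (g := fun p : (_ : Fin N) × ℕ => σ^[p.2] (Sum.inl p.1 : Fin N ⊕ V))
      (f := fun e => c e (σ e)) hinj]
    exact Finset.sum_le_sum_of_subset_of_nonneg (Finset.subset_univ _)
      (fun e _ _ => hc0 e (σ e))
  obtain ⟨S, hS⟩ : ∃ S : Fin N → Finset V, S = fun i =>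
    if h : 2 ≤ k (.inl i) then inner (P i h) else ∅ := ⟨_, rfl⟩
  have hS1 : ∀ i (h : 2 ≤ k (.inl i)), S i = inner (P i h) := by
    intro i h; rw [hS]; simp [h]
  have hS0 : ∀ i (h : ¬ 2 ≤ k (.inl i)), S i = ∅ := by
    intro i h; rw [hS]; simp [h]
  have hSi : ∀ i, (M : ℤ) - ∑ t ∈ Finset.range (k (.inl i)),
      c (σ^[t] (.inl i)) (σ^[t+1] (.inl i)) = ∑ x ∈ S i, (z x : ℤ) := by
    intro i
    by_cases h : 2 ≤ k (.inl i)
    · rw [hS1 i h, ← hPl i h]
      have h1 := sum_inner (hpath i h) z hzv hzw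
      have h2 := hexact i h
      rw [← h1] at h2
      push_cast [← h2]
      ring
    · rw [hS0 i h]
      obtain ⟨h1, j, hj⟩ := hk1 (.inl i) ⟨i, rfl⟩
      have h2 : k (.inl i) = 1 := by omega
      rw [h2] at hj ⊢
      simp only [Finset.sum_range_one, Finset.sum_empty]
      rw [zero_add, hj]
      rw [hc]
      simp [cost]
  have hSdisj : ∀ i j, i ≠ j → Disjoint (S i) (S j) := by
    intro i j hij
    by_cases hi : 2 ≤ k (.inl i)
    · by_cases hj : 2 ≤ k (.inl j)
      · rw [hS1 i hi, hS1 j hj, Finset.disjoint_left]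
        intro x hxi hxj
        rw [mem_inner] at hxi hxj
        rcases hdisj i j hi hj hij x hxi.1 hxj.1 with h | h
        · exact hxi.2.1 h
        · exact hxi.2.2 h
      · rw [hS0 j hj]; simp
    · rw [hS0 i hi]; simp
  have hcover : ∀ x, z x ≠ 0 → ∃ i, x ∈ S i := by
    intro x hx
    by_contra hno
    push Not at hno
    have h1 : ∑ x ∈ Finset.univ.biUnion S, (z x : ℤ) = ∑ i, ∑ x ∈ S i, (z x : ℤ) :=
      Finset.sum_biUnion (fun i _ j _ hij => hSdisj i j hij)
    have h2 : ∑ i : Fin N, ∑ x ∈ S i, (z x : ℤ) = N * M - ∑ i : Fin N,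
        ∑ t ∈ Finset.range (k (.inl i)), c (σ^[t] (.inl i)) (σ^[t+1] (.inl i)) := by
      rw [← Finset.sum_congr rfl fun i _ => hSi i, Finset.sum_sub_distrib]
      simp
    have h3 : ∑ e, (a e + b e) = ∑ i : Fin N, (a (.inl i) + b (.inl i)) - ∑ x : V, (z x : ℤ) := by
      rw [Fintype.sum_sum_type, sub_eq_add_neg, ← Finset.sum_neg_distrib]
      congr 1
      refine Finset.sum_congr rfl fun x _ => ?_
      rw [hz]; ring
    have h4 : ∑ i : Fin N, (a (.inl i) + b (.inl i)) ≤ N * M := by
      calc ∑ i : Fin N, (a (.inl i) + b (.inl i)) ≤ ∑ _i : Fin N, (M : ℤ) :=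
            Finset.sum_le_sum fun i _ => hab_le i i
        _ = N * M := by simp
    have h5 : x ∉ Finset.univ.biUnion S := by simpa using hno
    have h6 : ∑ y ∈ insert x (Finset.univ.biUnion S), (z y : ℤ) ≤ ∑ y, (z y : ℤ) :=
      Finset.sum_le_sum_of_subset_of_nonneg (Finset.subset_univ _) (fun _ _ _ => by positivity)
    rw [Finset.sum_insert h5] at h6
    have h7 : (0 : ℤ) < z x := by positivity
    linarith
  -- the final family
  obtain ⟨J, hJ⟩ : ∃ J : Finset (Fin N), J = Finset.univ.filter fun i =>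
    2 ≤ k (.inl i) ∧ ∀ h, len L (P i h) < M := ⟨_, rfl⟩
  have hJmem : ∀ i, i ∈ J ↔ (2 ≤ k (.inl i) ∧ ∀ h, len L (P i h) < M) := by
    intro i; rw [hJ]; simp
  have hJ2 : ∀ i : J, 2 ≤ k (.inl (i : Fin N)) := fun i => ((hJmem i).1 i.2).1
  let e : Fin (Fintype.card J) ≃ J := (Fintype.equivFin J).symm
  refine ⟨Fintype.card J, fun j => P (e j) (hJ2 (e j)), z, π, ?_, ?_, hzv, hzw, hπv, hπw, hpot,
    ?_, ?_, ?_⟩
  · intro j
    exact hpath _ _
  · intro i j hij x hxi hxj
    refine hdisj _ _ (hJ2 (e i)) (hJ2 (e j)) ?_ x hxi hxj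
    intro h
    exact hij (e.injective (Subtype.ext h))
  · intro j
    exact ((hJmem _).1 (e j).2).2 _
  · intro j
    exact hexact _ _
  · intro x hx
    obtain ⟨i, hi⟩ := hcover x hx
    by_cases h : 2 ≤ k (.inl i)
    · rw [hS1 i h] at hi
      have hxs : x ∈ (P i h).support := (mem_inner.1 hi).1
      have hlt : len L (P i h) < M := by
        have h1 := hexact i h
        have h2 := sum_inner (hpath i h) z hzv hzw
        have h3 : z x ≤ ∑ x ∈ inner (P i h), z x :=
          Finset.single_le_sum (f := z) (fun _ _ => Nat.zero_le _) hi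
        omega
      have hiJ : i ∈ J := (hJmem i).2 ⟨h, fun _ => hlt⟩
      refine ⟨e.symm ⟨i, hiJ⟩, ?_⟩
      have h4 : e (e.symm ⟨i, hiJ⟩) = ⟨i, hiJ⟩ := e.apply_symm_apply _
      have h5 : ∀ (y : J) (hy : 2 ≤ k (.inl (y : Fin N))), y = ⟨i, hiJ⟩ →
          x ∈ (P y hy).support := by
        rintro y hy rfl
        exact hxs
      exact h5 _ _ h4
    · rw [hS0 i h] at hi
      simp at hi

end Pool.Agent.H9.Chung
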