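import Pool.Agent.H9.Chung.Main

set_option autoImplicit false

namespace Pool.Agent.H9.Chung.FiveElevenths

/-- Short paths: if there are no `m + 1` internally disjoint `v`-`w` paths of length at most `d`,
then some set of at most `(5 d + 2) m / 11` vertices meets all `v`-`w` paths of length at
most `d`. -/
theorem result {V : Type*} [Fintype V] (G : SimpleGraph V) (v w : V) (hvw : v ≠ w)
    (hadj : ¬ G.Adj v w) (d m : ℕ)
    (hm : ¬ ∃ f : Fin (m + 1) → G.Walk v w,
      (∀ i, (f i).IsPath ∧ (f i).length ≤ d) ∧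
      ∀ i j, i ≠ j → ∀ x, x ∈ (f i).support → x ∈ (f j).support → x = v ∨ x = w) :
    ∃ S : Finset V, v ∉ S ∧ w ∉ S ∧
      (∀ p : G.Walk v w, p.IsPath → p.length ≤ d → ∃ x ∈ S, x ∈ p.support) ∧
      11 * S.card ≤ (5 * d + 2) * m := by
  classical
  obtain ⟨S, h1, h2, h3, h4⟩ := Pool.Agent.H9.Chung.chung_main G hvw hadj d m (by
    intro q P hp hd hl
    by_contra hq
    push Not at hq
    apply hm
    refine ⟨fun i => P (Fin.castLE hq i), fun i => ⟨hp _, hl _⟩, fun i j hij x hi hj => ?_⟩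
    exact hd _ _ (fun h => hij (Fin.castLE_injective hq h)) x hi hj)
  exact ⟨S, h1, h2, fun p _ hp => h3 p hp, h4⟩

end Pool.Agent.H9.Chung.FiveElevenths
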