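import Pool.Agent.H9.Chung.Dual

set_option autoImplicit false

namespace Pool.Agent.H9.Chung

open Finset SimpleGraph

variable {V : Type*} [DecidableEq V] (G : SimpleGraph V)

/-- The graph `G` without the edges at `Y`. -/
def del (Y : Finset V) : SimpleGraph V where
  Adj a b := G.Adj a b ∧ a ∉ Y ∧ b ∉ Y
  symm := ⟨fun _ _ h => ⟨h.1.symm, h.2.2, h.2.1⟩⟩
  loopless := ⟨fun _ h => h.1.ne rfl⟩

theorem del_support {Y : Finset V} {a b : V} (p : (del G Y).Walk a b) (ha : a ∉ Y) :
    ∀ x ∈ p.support, x ∉ Y := by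
  induction p with
  | nil => intro x hx; simp at hx; rw [hx]; exact ha
  | cons h p ih =>
    intro x hx
    rw [Walk.support_cons, List.mem_cons] at hx
    rcases hx with rfl | hx
    · exact ha
    · exact ih h.2.2 x hx

/-- Potentials along walks that avoid a set. -/
theorem pot_le_avoid {Y : Finset V} (z π : V → ℕ)
    (hπ : ∀ x y, G.Adj x y → x ∉ Y → y ∉ Y → π y ≤ π x + z x + 1) {a b : V} (p : G.Walk a b)
    (hp : ∀ x ∈ p.support, x ∉ Y) :
    π b + z b ≤ π a + p.length + toll z p := by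
  induction p with
  | nil => simp
  | @cons a b c h p ih =>
    have h1 := hπ _ _ h (hp _ (by simp)) (hp _ (by simp))
    have h2 := ih (fun x hx => hp x (by simp [hx]))
    simp only [Walk.length_cons, toll_cons]
    omega

theorem len_const (a : ℕ) {u v : V} (p : G.Walk u v) : len (fun _ _ => a) p = a * p.length := by
  induction p with
  | nil => simp
  | cons h p ih => simp [ih, Nat.mul_add, add_comm]

/-- Step 4 for one set `Y`. -/
theorem cut_bound [Fintype V] {v w : V} (hvw : v ≠ w) (hadj : ¬ G.Adj v w) (a M : ℕ)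
    (Y : Finset V) (hvY : v ∉ Y) (hwY : w ∉ Y) (z ρ : V → ℕ) (hzv : z v = 0) (hzw : z w = 0)
    (hρv : ρ v = 0) (hρw : ρ w = a * M)
    (hρ : ∀ x y, G.Adj x y → x ∉ Y → y ∉ Y → ρ y ≤ ρ x + z x + a) :
    ∃ S : Finset V, v ∉ S ∧ w ∉ S ∧
      (∀ p : G.Walk v w, p.length < M → ∃ x ∈ S, x ∈ p.support) ∧
      a * S.card ≤ a * Y.card + ∑ x ∈ Yᶜ, z x := by
  classical
  have hadj' : ¬ (del G Y).Adj v w := fun h => hadj h.1
  obtain ⟨q, P, y, π, hpath, hdisj, hyv, hyw, hπv, hπw, hπ, -, hlen, hsupp⟩ :=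
    duality (del G Y) hvw hadj' (fun _ _ => 1) M
  simp only [len_one] at hlen
  have hyinn : ∀ x, y x ≠ 0 → x ∈ inn P := by
    intro x hx
    obtain ⟨i, hi⟩ := hsupp x hx
    rw [mem_inn]
    refine ⟨i, mem_inner.2 ⟨hi, ?_, ?_⟩⟩
    · rintro rfl; exact hx hyv
    · rintro rfl; exact hx hyw
  refine ⟨Y ∪ Finset.univ.filter (fun x => y x ≠ 0), ?_, ?_, ?_, ?_⟩
  · simp [hvY, hyv]
  · simp [hwY, hyw]
  · intro p hp
    by_contra hno
    push Not at hno
    have h1 : ∀ x ∈ p.support, x ∉ Y := by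
      intro x hx hxY
      exact hno x (by simp [hxY]) hx
    have h2 := pot_le_avoid G y π (fun a b h ha hb => hπ a b ⟨h, ha, hb⟩) p h1
    have h3 : toll y p = 0 := by
      rw [toll, List.sum_eq_zero_iff]
      intro n hn
      rw [List.mem_map] at hn
      obtain ⟨x, hx, rfl⟩ := hn
      by_contra h0
      exact hno x (by simp [h0]) hx
    omega
  · have h1 : (Y ∪ Finset.univ.filter (fun x => y x ≠ 0)).card ≤ Y.card + ∑ x ∈ inn P, y x := by
      refine (Finset.card_union_le _ _).trans (Nat.add_le_add_left ?_ _)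
      rw [Finset.card_eq_sum_ones]
      calc ∑ x ∈ Finset.univ.filter (fun x => y x ≠ 0), 1
          ≤ ∑ x ∈ Finset.univ.filter (fun x => y x ≠ 0), y x := by
            refine Finset.sum_le_sum fun x hx => ?_
            have := (Finset.mem_filter.1 hx).2
            omega
        _ ≤ ∑ x ∈ inn P, y x :=
            Finset.sum_le_sum_of_subset (fun x hx => hyinn x (Finset.mem_filter.1 hx).2)
    have h2 : ∑ x ∈ inn P, y x = ∑ i, toll y (P i) := sum_inn_toll hdisj hpath y hyv hyw
    have h3 : ∑ x ∈ inn P, z x = ∑ i, toll z (P i) := sum_inn_toll hdisj hpath z hzv hzw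
    have h4 : ∀ i, a * toll y (P i) ≤ toll z (P i) := by
      intro i
      have h5 := pot_le (G := del G Y) (fun _ _ => a) z ρ
        (fun a b (h : (del G Y).Adj a b) => hρ a b h.1 h.2.1 h.2.2) (P i)
      rw [len_const, hρv, hρw, hzw] at h5
      have h6 := hlen i
      have h7 : a * M = a * (P i).length + a * toll y (P i) := by rw [← h6, Nat.mul_add]
      omega
    have h5 : a * ∑ i, toll y (P i) ≤ ∑ i, toll z (P i) := by
      rw [Finset.mul_sum]
      exact Finset.sum_le_sum fun i _ => h4 i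
    have h6 : ∑ x ∈ inn P, z x ≤ ∑ x ∈ Yᶜ, z x := by
      refine Finset.sum_le_sum_of_subset ?_
      intro x hx
      rw [Finset.mem_compl]
      obtain ⟨i, hi⟩ := mem_inn.1 hx
      exact del_support G (P i) hvY x (mem_inner.1 hi).1
    calc a * (Y ∪ Finset.univ.filter (fun x => y x ≠ 0)).card
        ≤ a * (Y.card + ∑ x ∈ inn P, y x) := Nat.mul_le_mul_left _ h1
      _ = a * Y.card + a * ∑ i, toll y (P i) := by rw [Nat.mul_add, h2]
      _ ≤ a * Y.card + ∑ x ∈ Yᶜ, z x := by
        refine Nat.add_le_add_left ?_ _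
        rw [h3] at h6
        exact h5.trans h6

/-- The lengths of the second problem. -/
def len2 (y π : V → ℕ) (x x' : V) : ℕ :=
  (max 3 (2 * ((π x' : ℤ) - π x) + ((y x' : ℤ) - y x))).toNat

theorem len2_ge (y π : V → ℕ) {a b : V} (p : G.Walk a b) :
    2 * ((π b : ℤ) - π a) + ((y b : ℤ) - y a) ≤ len (len2 y π) p := by
  induction p with
  | nil => simp
  | @cons a b c h p ih =>
    have h1 : 2 * ((π b : ℤ) - π a) + ((y b : ℤ) - y a) ≤ len2 y π a b := by
      rw [len2]; omega
    rw [len_cons]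
    push_cast
    linarith

theorem len2_ge3 (y π : V → ℕ) {a b : V} (p : G.Walk a b) :
    3 * p.length ≤ len (len2 y π) p := by
  induction p with
  | nil => simp
  | @cons a b c h p ih =>
    have h1 : 3 ≤ len2 y π a b := by
      rw [len2]; omega
    rw [len_cons, Walk.length_cons]
    omega

/-- Indicator of a positive toll. -/
def ind (y : V → ℕ) (x : V) : ℕ := if y x = 0 then 0 else 1

/-- Upper bound for the new length of a tight path. -/
theorem len2_le (y π : V → ℕ) (hπ : ∀ x x', G.Adj x x' → π x' ≤ π x + y x + 1) {a b : V}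
    (p : G.Walk a b) (htight : π a + p.length + toll y p ≤ π b + y b) :
    len (len2 y π) p + y a + y b + toll (ind y) p ≤
      3 * p.length + 2 * toll y p + ind y b := by
  induction p with
  | nil => simp; omega
  | @cons a c b h p ih =>
    have h1 := pot_le (fun _ _ => 1) y π hπ p
    rw [len_one] at h1
    have h2 := hπ _ _ h
    simp only [Walk.length_cons, toll_cons] at htight ⊢
    have h3 := ih (by omega)
    have h4 : π c = π a + y a + 1 := by omega
    have h5 : len2 y π a c + ind y a ≤ 3 + y a + y c := by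
      rw [len2, ind, h4]
      split_ifs <;> omega
    rw [len_cons]
    omega

/-- Main inequality: `11 κ ≤ (5 d + 2) μ`. -/
theorem chung_main [Fintype V] {v w : V} (hvw : v ≠ w) (hadj : ¬ G.Adj v w) (d μ : ℕ)
    (hμ : ∀ (q : ℕ) (P : Fin q → G.Walk v w), (∀ i, (P i).IsPath) → Disj P →
      (∀ i, (P i).length ≤ d) → q ≤ μ) :
    ∃ S : Finset V, v ∉ S ∧ w ∉ S ∧
      (∀ p : G.Walk v w, p.length ≤ d → ∃ x ∈ S, x ∈ p.support) ∧
      11 * S.card ≤ (5 * d + 2) * μ := by
  classical
  obtain ⟨M, hMd⟩ : ∃ M, M = d + 1 := ⟨_, rfl⟩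
  -- first problem
  obtain ⟨m, P, y, π, hPp, hPd, hyv, hyw, hπv, hπw, hπ, hPl, hPe, hPs⟩ :=
    duality G hvw hadj (fun _ _ => 1) M
  simp only [len_one] at hPl hPe
  have hmμ : m ≤ μ := hμ m P hPp hPd (fun i => by have := hPl i; omega)
  -- second problem
  obtain ⟨q, Q, z, ρ, hQp, hQd, hzv, hzw, hρv, hρw, hρ, hQl, hQe, hQs⟩ :=
    duality G hvw hadj (len2 y π) (3 * M)
  have hqμ : q ≤ μ := by
    refine hμ q Q hQp hQd (fun i => ?_)
    have h1 := hQl i
    have h2 := len2_ge3 G y π (Q i)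
    omega
  -- supports
  have hyinn : ∀ x, y x ≠ 0 → x ∈ inn P := by
    intro x hx
    obtain ⟨i, hi⟩ := hPs x hx
    rw [mem_inn]
    refine ⟨i, mem_inner.2 ⟨hi, ?_, ?_⟩⟩
    · rintro rfl; exact hx hyv
    · rintro rfl; exact hx hyw
  have hzinn : ∀ x, z x ≠ 0 → x ∈ inn Q := by
    intro x hx
    obtain ⟨i, hi⟩ := hQs x hx
    rw [mem_inn]
    refine ⟨i, mem_inner.2 ⟨hi, ?_, ?_⟩⟩
    · rintro rfl; exact hx hzv
    · rintro rfl; exact hx hzw
  -- the sum of all `z`
  have hzsum : ∑ x, z x ≤ M * μ := by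
    have h1 : ∑ x, z x = ∑ x ∈ inn Q, z x := by
      symm
      apply Finset.sum_subset (Finset.subset_univ _)
      intro x _ hx
      by_contra h
      exact hx (hzinn x h)
    rw [h1, sum_inn_toll hQd hQp z hzv hzw]
    calc ∑ i, toll z (Q i) ≤ ∑ _i : Fin q, M := by
          refine Finset.sum_le_sum fun i _ => ?_
          have h2 := hQe i
          have h3 := len2_ge G y π (Q i)
          rw [hπv, hπw, hyv, hyw] at h3
          push_cast at h3
          have h4 : 2 * M ≤ len (len2 y π) (Q i) := by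
            have : (2 * M : ℤ) ≤ len (len2 y π) (Q i) := by linarith
            exact_mod_cast this
          omega
      _ = M * q := by simp [mul_comm]
      _ ≤ M * μ := Nat.mul_le_mul_left _ hqμ
  -- the lanes
  have hlane : ∀ i, toll y (P i) + toll (ind y) (P i) ≤ toll z (P i) := by
    intro i
    have h1 := hPe i
    have h2 := len2_le G y π hπ (P i) (by rw [hπv, hπw, hyw]; omega)
    have h3 := pot_le (len2 y π) z ρ hρ (P i)
    have h4 : ind y w = 0 := by simp [ind, hyw]
    rw [hyv, hyw, h4] at h2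
    rw [hρv, hρw, hzw] at h3
    omega
  have hindv : ind y v = 0 := by simp [ind, hyv]
  have hindw : ind y w = 0 := by simp [ind, hyw]
  have hlanes : ∑ x ∈ inn P, y x + ∑ x ∈ inn P, ind y x ≤ ∑ x ∈ inn P, z x := by
    rw [sum_inn_toll hPd hPp y hyv hyw, sum_inn_toll hPd hPp (ind y) hindv hindw,
      sum_inn_toll hPd hPp z hzv hzw, ← Finset.sum_add_distrib]
    exact Finset.sum_le_sum fun i _ => hlane i
  have hcardP : (inn P).card + m + ∑ x ∈ inn P, y x = m * M := by
    rw [card_inn hvw hPd hPp, sum_inn_toll hPd hPp y hyv hyw, ← Finset.sum_add_distrib]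
    rw [Finset.sum_congr rfl fun i _ => hPe i]
    simp
  -- a smallest cut
  let IsCut : Finset V → Prop := fun S => v ∉ S ∧ w ∉ S ∧
    ∀ p : G.Walk v w, p.length < M → ∃ x ∈ S, x ∈ p.support
  obtain ⟨K, hK⟩ : ∃ K : Finset V, K = Finset.univ.filter (fun x => y x ≠ 0) := ⟨_, rfl⟩
  have hKcut : IsCut K := by
    refine ⟨by simp [hK, hyv], by simp [hK, hyw], ?_⟩
    intro p hp
    by_contra hno
    push Not at hno
    have h2 := pot_le (fun _ _ => 1) y π hπ p
    have h3 : toll y p = 0 := by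
      rw [toll, List.sum_eq_zero_iff]
      intro n hn
      rw [List.mem_map] at hn
      obtain ⟨x, hx, rfl⟩ := hn
      by_contra h0
      exact hno x (by simp [hK, h0]) hx
    rw [len_one] at h2
    omega
  obtain ⟨S, hS, hSmin⟩ : ∃ S, IsCut S ∧ ∀ S', IsCut S' → S.card ≤ S'.card := by
    obtain ⟨S, hS, hmin⟩ := (Finset.univ.filter IsCut).exists_min_image Finset.card
      ⟨K, by simp [hKcut]⟩
    exact ⟨S, (Finset.mem_filter.1 hS).2, fun S' hS' => hmin S' (by simp [hS'])⟩
  refine ⟨S, hS.1, hS.2.1, fun p hp => hS.2.2 p (by omega), ?_⟩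
  -- the eight sets
  let Y : Fin 4 × Bool → Finset V := fun r => (inn P).filter fun x =>
    2 ≤ y x ∨ (y x = 1 ∧ (π x % 4 = r.1.val ∨ π x % 4 = (r.1.val + 1) % 4)) ∨
      (r.2 = true ∧ y x = 0)
  have hYmem : ∀ r x, x ∈ Y r ↔ x ∈ inn P ∧ (2 ≤ y x ∨ (y x = 1 ∧ (π x % 4 = r.1.val ∨
      π x % 4 = (r.1.val + 1) % 4)) ∨ (r.2 = true ∧ y x = 0)) := by
    intro r x; simp [Y]
  have hinnv : v ∉ inn P := by
    intro h; obtain ⟨i, hi⟩ := mem_inn.1 h; exact (mem_inner.1 hi).2.1 rfl
  have hinnw : w ∉ inn P := by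
    intro h; obtain ⟨i, hi⟩ := mem_inn.1 h; exact (mem_inner.1 hi).2.2 rfl
  have hY : ∀ r, 3 * S.card ≤ 3 * (Y r).card + ∑ x ∈ (Y r)ᶜ, z x := by
    intro r
    obtain ⟨S', h1, h2, h3, h4⟩ := cut_bound G hvw hadj 3 M (Y r)
      (fun h => hinnv ((hYmem r v).1 h).1) (fun h => hinnw ((hYmem r w).1 h).1) z ρ hzv hzw
      hρv hρw (by
        intro x x' hxx' hx hx'
        have h5 := hρ x x' hxx'
        have h6 : len2 y π x x' ≤ 3 := by
          have h7 := hπ x x' hxx'
          have hr := r.1.isLt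
          have hx1 : y x = 0 ∨ (y x = 1 ∧ ¬ (π x % 4 = r.1.val ∨
              π x % 4 = (r.1.val + 1) % 4)) := by
            by_cases h0 : y x = 0
            · exact Or.inl h0
            · right
              have hin := hyinn x h0
              have h8 : ¬ (2 ≤ y x ∨ (y x = 1 ∧ (π x % 4 = r.1.val ∨
                  π x % 4 = (r.1.val + 1) % 4)) ∨ (r.2 = true ∧ y x = 0)) :=
                fun h => hx ((hYmem r x).2 ⟨hin, h⟩)
              push Not at h8
              have h9 : y x = 1 := by omega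
              exact ⟨h9, fun h => by
                have := h8.2.1 h9
                omega⟩
          have hx2 : y x' = 0 ∨ (y x' = 1 ∧ ¬ (π x' % 4 = r.1.val ∨
              π x' % 4 = (r.1.val + 1) % 4)) := by
            by_cases h0 : y x' = 0
            · exact Or.inl h0
            · right
              have hin := hyinn x' h0
              have h8 : ¬ (2 ≤ y x' ∨ (y x' = 1 ∧ (π x' % 4 = r.1.val ∨
                  π x' % 4 = (r.1.val + 1) % 4)) ∨ (r.2 = true ∧ y x' = 0)) :=
                fun h => hx' ((hYmem r x').2 ⟨hin, h⟩)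
              push Not at h8
              have h9 : y x' = 1 := by omega
              exact ⟨h9, fun h => by
                have := h8.2.1 h9
                omega⟩
          rw [len2]
          omega
        omega)
    have := hSmin S' ⟨h1, h2, h3⟩
    omega
  -- pointwise bound
  let g : Fin 4 × Bool → V → ℤ := fun r x => if x ∈ Y r then 3 else z x
  have hg : ∀ r, (3 * S.card : ℤ) ≤ ∑ x, g r x := by
    intro r
    have h1 : (3 * S.card : ℤ) ≤ 3 * (Y r).card + ∑ x ∈ (Y r)ᶜ, (z x : ℤ) := by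
      exact_mod_cast hY r
    have h2 : ∑ x, g r x = 3 * (Y r).card + ∑ x ∈ (Y r)ᶜ, (z x : ℤ) := by
      rw [← Finset.sum_add_sum_compl (Y r)]
      congr 1
      · rw [Finset.sum_congr rfl (g := fun _ => (3 : ℤ)) (fun x hx => by simp [g, hx])]
        simp [mul_comm]
      · refine Finset.sum_congr rfl fun x hx => ?_
        have : x ∉ Y r := by simpa using hx
        simp [g, this]
    rw [h2]; exact h1
  let ind2 : V → ℤ := fun x => if 2 ≤ y x then 1 else 0
  have hpt : ∀ x, ∑ r, g r x ≤ 8 * (z x : ℤ) +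
      (if x ∈ inn P then 12 - 4 * (z x : ℤ) + 12 * ind2 x else 0) := by
    intro x
    rw [Fintype.sum_prod_type]
    simp only [Fin.sum_univ_four, Fintype.sum_bool]
    by_cases hin : x ∈ inn P
    · have hz0 : (0 : ℤ) ≤ z x := by positivity
      rcases Nat.lt_or_ge (y x) 2 with hy2 | hy2
      · have hy01 : y x = 0 ∨ y x = 1 := by omega
        rcases hy01 with hy | hy
        · simp only [g, hYmem, hin, hy, ind2, true_and]
          simp
          omega
        · have h4 : π x % 4 = 0 ∨ π x % 4 = 1 ∨ π x % 4 = 2 ∨ π x % 4 = 3 := by omega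
          simp only [g, hYmem, hin, hy, ind2, true_and]
          rcases h4 with h | h | h | h <;> simp [h] <;> omega
      · simp only [g, hYmem, hin, ind2, true_and, if_pos hy2]
        simp [hy2]
        omega
    · have hy : ∀ r, x ∉ Y r := fun r h => hin ((hYmem r x).1 h).1
      simp only [g, hy, if_neg hin, if_false]
      omega
  have hsum8 : (24 * S.card : ℤ) ≤ ∑ x, (8 * (z x : ℤ) +
      (if x ∈ inn P then 12 - 4 * (z x : ℤ) + 12 * ind2 x else 0)) := by
    calc (24 * S.card : ℤ) = ∑ _r : Fin 4 × Bool, (3 * S.card : ℤ) := by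
          simp; ring
      _ ≤ ∑ r, ∑ x, g r x := Finset.sum_le_sum fun r _ => hg r
      _ = ∑ x, ∑ r, g r x := Finset.sum_comm
      _ ≤ _ := Finset.sum_le_sum fun x _ => hpt x
  rw [Finset.sum_add_distrib, ← Finset.sum_filter] at hsum8
  have hfilt : (Finset.univ.filter fun x => x ∈ inn P) = inn P := by ext x; simp
  rw [hfilt, Finset.sum_add_distrib, Finset.sum_sub_distrib, ← Finset.mul_sum, ← Finset.mul_sum,
    ← Finset.mul_sum] at hsum8
  simp only [Finset.sum_const, nsmul_eq_mul] at hsum8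
  have hind2 : ∑ x ∈ inn P, ((ind y x : ℕ) : ℤ) + ∑ x ∈ inn P, ind2 x ≤
      ∑ x ∈ inn P, ((y x : ℕ) : ℤ) := by
    rw [← Finset.sum_add_distrib]
    refine Finset.sum_le_sum fun x _ => ?_
    simp only [ind, ind2]
    split_ifs <;> omega
  have hSK : S.card ≤ ∑ x ∈ inn P, ind y x := by
    have h1 := hSmin K hKcut
    have h2 : K.card ≤ ∑ x ∈ inn P, ind y x := by
      rw [Finset.card_eq_sum_ones]
      calc ∑ x ∈ K, 1 = ∑ x ∈ K, ind y x := by
            refine Finset.sum_congr rfl fun x hx => ?_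
            have : y x ≠ 0 := by rw [hK] at hx; simpa using hx
            simp [ind, this]
        _ ≤ ∑ x ∈ inn P, ind y x := by
            refine Finset.sum_le_sum_of_subset fun x hx => hyinn x ?_
            rw [hK] at hx; simpa using hx
    omega
  have hindy : ∑ x ∈ inn P, ind y x ≤ ∑ x ∈ inn P, y x := by
    refine Finset.sum_le_sum fun x _ => ?_
    simp only [ind]
    split_ifs <;> omega
  obtain ⟨nK, hnK⟩ : ∃ n, n = ∑ x ∈ inn P, ind y x := ⟨_, rfl⟩
  obtain ⟨T, hT⟩ : ∃ n, n = ∑ x ∈ inn P, y x := ⟨_, rfl⟩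
  obtain ⟨Z, hZ⟩ : ∃ n, n = ∑ x ∈ inn P, z x := ⟨_, rfl⟩
  obtain ⟨Z', hZ'⟩ : ∃ n, n = ∑ x, z x := ⟨_, rfl⟩
  obtain ⟨k2, hk2⟩ : ∃ n, n = ∑ x ∈ inn P, ind2 x := ⟨_, rfl⟩
  have e1 : (∑ x ∈ inn P, ((ind y x : ℕ) : ℤ)) = nK := by rw [hnK]; push_cast; rfl
  have e2 : (∑ x ∈ inn P, ((y x : ℕ) : ℤ)) = T := by rw [hT]; push_cast; rfl
  have e3 : (∑ x ∈ inn P, ((z x : ℕ) : ℤ)) = Z := by rw [hZ]; push_cast; rfl
  have e4 : (∑ x, ((z x : ℕ) : ℤ)) = Z' := by rw [hZ']; push_cast; rfl
  rw [e1, e2, ← hk2] at hind2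
  rw [e3, e4, ← hk2] at hsum8
  rw [← hnK] at hSK hindy hlanes
  rw [← hT] at hindy hcardP hlanes
  rw [← hZ] at hlanes
  rw [← hZ'] at hzsum
  have hmM : m * M ≤ μ * M := Nat.mul_le_mul_right _ hmμ
  -- combine
  have hmM' : m * (M - 1) ≤ μ * (M - 1) := Nat.mul_le_mul_right _ hmμ
  have hMd' : M - 1 = d := by omega
  rw [hMd'] at hmM'
  have hmd : m * M = m * d + m := by rw [hMd]; ring
  have hμM : M * μ = μ * d + μ := by rw [hMd]; ring
  rw [hmd] at hcardP
  rw [hμM] at hzsum
  have hgoal : (5 * d + 2) * μ = 5 * (μ * d) + 2 * μ := by ring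
  rw [hgoal]
  generalize m * d = A at *
  generalize μ * d = B at *
  push_cast at hsum8
  omega

end Pool.Agent.H9.Chung
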